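import Pool.Agent.H3.SD.RC

set_option autoImplicit false

/-!
# [H3 SD BAD] Few polynomials of the residue class are not squarefree

`m = mo F D`, `u = deg m`, `q = card F ≥ 2`; a prime `r` which divides some `Az m n z` has degree `> D` (`mo_dvd`, `az_cop`) and is prime to `m` (`mo_cop`).
* `bad1`: if `Az m n z` (monic of degree `n + u`, `az_mon`) is not squarefree there is a prime `r` (monic irreducible) with `r ^ 2 ∣ Az m n z`, `D < deg r = k`, `2 k ≤ n + u`.  For given `r`: if `2 k ≤ n` at most `q ^ (n - 2 k)` values of `z` (`rc_card` for `Q = r ^ 2`), if `2 k > n` at most one (`rc_one`).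
  There are at most `q ^ k` primes of degree `k` (`Pr F k ⊆ Mo F k`, or `H94.PC` card lemmas).  So the number is at most `∑_{D < k ≤ n / 2} q ^ k q ^ (n - 2 k) + ∑_{k ≤ (n + u) / 2} q ^ k ≤ q ^ n / q ^ D + 2 q ^ ((n + u) / 2)` (`∑_{k > D} q ^ (- k) ≤ q ^ (- D)`).
* `bad2`: if `Az m n x`, `Az m n y` are not coprime there is a prime `r` of degree `k`, `D < k ≤ n + u`, which divides both; for given `r` at most `q ^ (2 (n - k))` pairs if `k ≤ n` (`rc_card` for `Q = r`) and at most one pair if `k > n`.  So at most `∑_{D < k ≤ n} q ^ k q ^ (2 (n - k)) + ∑_{k ≤ n + u} q ^ k ≤ q ^ (2 n) / q ^ D + 2 q ^ (n + u)`.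
* `bad3`: for `x, y ∈ Lt F n`, `w = C 2⁻¹ * (x + y)`: if `Az x`, `Az y`, `Az w` are squarefree and `Az x`, `Az y` coprime then `Az x * Az y * (-(Az x + Az y))` is squarefree: `-(Az x + Az y) = C (-2) * Az w` (`az_add`) is squarefree and coprime to `Az x` and `Az y`.
-/

namespace Pool.Agent.H3.SD

open Polynomial
open Pool.Agent.H94.PC
open Pool.Agent.H94.PS

variable {F : Type} [Field F] [Finite F] {n : ℕ}

private theorem bad_geo {q A : ℝ} (hq : 2 ≤ q) (hA : 0 ≤ A) (D N : ℕ) :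
    ∑ k ∈ Finset.Icc (D + 1) N, A / q ^ k ≤ A / q ^ D := by
  have hq0 : 0 < q := by linarith
  have h1 : ∀ j : ℕ, ∑ k ∈ Finset.Icc (D + 1) (D + j), A / q ^ k ≤ A / q ^ D - A / q ^ (D + j) := by
    intro j
    induction j with
    | zero =>
      rw [Finset.Icc_eq_empty (by omega), Finset.sum_empty, Nat.add_zero, sub_self]
    | succ j ih =>
      rw [← Nat.add_assoc, Finset.sum_Icc_succ_top (by omega)]
      have h2 : A / q ^ (D + j + 1) + A / q ^ (D + j + 1) ≤ A / q ^ (D + j) := by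
        rw [← add_div, div_le_div_iff₀ (by positivity) (by positivity), pow_succ]
        have h3 : 0 ≤ A * q ^ (D + j) := by positivity
        nlinarith
      linarith
  rcases le_or_gt D N with h | h
  · obtain ⟨j, rfl⟩ := Nat.exists_eq_add_of_le h
    refine (h1 j).trans ?_
    have : 0 ≤ A / q ^ (D + j) := by positivity
    linarith
  · rw [Finset.Icc_eq_empty (by omega), Finset.sum_empty]
    positivity

private theorem bad_sum {q : ℕ} {A : ℝ} (hq : 2 ≤ q) (hA : 0 ≤ A) (D N : ℕ) :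
    ∑ k ∈ Finset.Icc (D + 1) N, (A / (q : ℝ) ^ k + (q : ℝ) ^ k) ≤
      A / (q : ℝ) ^ D + 2 * (q : ℝ) ^ N := by
  rw [Finset.sum_add_distrib]
  have h1 : (2 : ℝ) ≤ q := by exact_mod_cast hq
  have h2 : ∑ k ∈ Finset.Icc (D + 1) N, (q : ℝ) ^ k ≤ 2 * (q : ℝ) ^ N := by
    have h3 : ∑ k ∈ Finset.Icc (D + 1) N, (q : ℝ) ^ k ≤ ∑ k ∈ Finset.range (N + 1), (q : ℝ) ^ k := by
      refine Finset.sum_le_sum_of_subset_of_nonneg ?_ fun k _ _ => by positivity
      intro k hk
      rw [Finset.mem_Icc] at hk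
      rw [Finset.mem_range]
      omega
    refine h3.trans ?_
    exact_mod_cast H74.ST.sum_pow_le hq N
  exact add_le_add (bad_geo h1 hA D N) h2

/-- a prime which divides a polynomial of the class has large degree -/
private theorem bad_deg {D : ℕ} {z r : F[X]} (hr : r.Monic) (hr' : Irreducible r)
    (h : r ∣ Az (mo F D) n z) : D < r.natDegree := by
  by_contra hcon
  have h1 : r ∣ mo F D := mo_dvd (not_lt.1 hcon) (mem_Pr.2 ⟨hr, rfl, hr'⟩)
  exact hr'.not_isUnit ((az_cop (mo F D) n z).isUnit_of_dvd' h1 h)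

open Classical in
/-- the number of the multiples of `Q` -/
private theorem bad_card {D : ℕ} {Q : F[X]} (hQ : Q.Monic) (hc : IsCoprime (mo F D) Q) :
    (((Lt F n).filter fun z => Q ∣ Az (mo F D) n z).card : ℝ) ≤
        (Nat.card F : ℝ) ^ n / (Nat.card F : ℝ) ^ Q.natDegree ∨
      (((Lt F n).filter fun z => Q ∣ Az (mo F D) n z).card : ℝ) ≤ 1 := by
  have hq : (0 : ℝ) < Nat.card F := by exact_mod_cast Nat.card_pos
  rcases le_or_gt Q.natDegree n with h | h
  · left
    rw [rc_card hQ hc h]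
    push_cast
    rw [le_div_iff₀ (by positivity), ← pow_add, Nat.sub_add_cancel h]
  · right
    exact_mod_cast rc_one hQ hc h.le

open Classical in
theorem bad1 (D : ℕ) (hn : 0 < n) :
    (((Lt F n).filter fun z => ¬ Squarefree (Az (mo F D) n z)).card : ℝ) ≤
      (Nat.card F : ℝ) ^ n / (Nat.card F : ℝ) ^ D +
        2 * (Nat.card F : ℝ) ^ ((n + (mo F D).natDegree) / 2) := by
  set u : ℕ := (mo F D).natDegree with hu
  have hq2 : 2 ≤ Nat.card F := Finite.one_lt_card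
  have hq : (0 : ℝ) < Nat.card F := by exact_mod_cast Nat.card_pos
  have hq1 : (1 : ℝ) ≤ Nat.card F := by
    have : 1 ≤ Nat.card F := by omega
    exact_mod_cast this
  have hsub : ((Lt F n).filter fun z => ¬ Squarefree (Az (mo F D) n z)) ⊆
      (Finset.Icc (D + 1) ((n + u) / 2)).biUnion fun k => (Pr F k).biUnion fun r =>
        (Lt F n).filter fun z => r ^ 2 ∣ Az (mo F D) n z := by
    intro z hz
    rw [Finset.mem_filter] at hz
    obtain ⟨hz, hns⟩ := hz
    obtain ⟨hA, hd⟩ := az_mon (mo_monic D) hn hz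
    unfold Squarefree at hns
    push Not at hns
    obtain ⟨x, hx, hxu⟩ := hns
    obtain ⟨r, hr1, hr2, hr3⟩ := exists_monic_irreducible_factor x hxu
    have h1 : r ^ 2 ∣ Az (mo F D) n z := by
      rw [sq]
      exact (mul_dvd_mul hr3 hr3).trans hx
    have h2 := bad_deg hr1 hr2 ((dvd_pow_self r two_ne_zero).trans h1)
    have h3 := natDegree_le_of_dvd h1 hA.ne_zero
    rw [hd, hr1.natDegree_pow, ← hu] at h3
    rw [Finset.mem_biUnion]
    refine ⟨r.natDegree, Finset.mem_Icc.2 ⟨h2, by omega⟩, ?_⟩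
    rw [Finset.mem_biUnion]
    exact ⟨r, mem_Pr.2 ⟨hr1, rfl, hr2⟩, Finset.mem_filter.2 ⟨hz, h1⟩⟩
  have h1 : (((Lt F n).filter fun z => ¬ Squarefree (Az (mo F D) n z)).card : ℝ) ≤
      ∑ k ∈ Finset.Icc (D + 1) ((n + u) / 2), ∑ r ∈ Pr F k,
        (((Lt F n).filter fun z => r ^ 2 ∣ Az (mo F D) n z).card : ℝ) := by
    have h2 := (Finset.card_le_card hsub).trans (Finset.card_biUnion_le.trans
      (Finset.sum_le_sum fun k _ => Finset.card_biUnion_le))
    exact_mod_cast h2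
  refine h1.trans ?_
  refine le_trans (Finset.sum_le_sum fun k hk => ?_)
    (bad_sum (q := Nat.card F) (A := (Nat.card F : ℝ) ^ n) hq2 (by positivity) D ((n + u) / 2))
  rw [Finset.mem_Icc] at hk
  have h2 : ∀ r ∈ Pr F k, (((Lt F n).filter fun z => r ^ 2 ∣ Az (mo F D) n z).card : ℝ) ≤
      (Nat.card F : ℝ) ^ n / (Nat.card F : ℝ) ^ (2 * k) + 1 := by
    intro r hr
    have hr' := mem_Pr.1 hr
    have h3 := bad_card (n := n) (D := D) (Q := r ^ 2) (hr'.1.pow 2)
      ((mo_cop (by omega) hr).pow_right)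
    rw [hr'.1.natDegree_pow, hr'.2.1] at h3
    have h4 : 0 ≤ (Nat.card F : ℝ) ^ n / (Nat.card F : ℝ) ^ (2 * k) := by positivity
    rcases h3 with h3 | h3 <;> linarith
  refine (Finset.sum_le_sum h2).trans ?_
  rw [Finset.sum_const, nsmul_eq_mul]
  have h3 : ((Pr F k).card : ℝ) ≤ (Nat.card F : ℝ) ^ k := by exact_mod_cast card_Pr_le k
  refine (mul_le_mul_of_nonneg_right h3 (by positivity)).trans (le_of_eq ?_)
  rw [mul_add, mul_one, two_mul, pow_add]
  congr 1
  field_simp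

open Classical in
theorem bad2 (D : ℕ) (hn : 0 < n) :
    (((Lt F n ×ˢ Lt F n).filter fun p =>
      ¬ IsCoprime (Az (mo F D) n p.1) (Az (mo F D) n p.2)).card : ℝ) ≤
      (Nat.card F : ℝ) ^ (2 * n) / (Nat.card F : ℝ) ^ D +
        2 * (Nat.card F : ℝ) ^ (n + (mo F D).natDegree) := by
  set u : ℕ := (mo F D).natDegree with hu
  have hq2 : 2 ≤ Nat.card F := Finite.one_lt_card
  have hq : (0 : ℝ) < Nat.card F := by exact_mod_cast Nat.card_pos
  have hsub : ((Lt F n ×ˢ Lt F n).filter fun p =>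
      ¬ IsCoprime (Az (mo F D) n p.1) (Az (mo F D) n p.2)) ⊆
      (Finset.Icc (D + 1) (n + u)).biUnion fun k => (Pr F k).biUnion fun r =>
        ((Lt F n).filter fun z => r ∣ Az (mo F D) n z) ×ˢ
          ((Lt F n).filter fun z => r ∣ Az (mo F D) n z) := by
    intro p hp
    rw [Finset.mem_filter, Finset.mem_product] at hp
    obtain ⟨⟨hx, hy⟩, hnc⟩ := hp
    obtain ⟨hA, hd⟩ := az_mon (mo_monic D) hn hx
    obtain ⟨hB, _⟩ := az_mon (mo_monic D) hn hy
    have h0 : ¬ Disjoint (pf (Az (mo F D) n p.1)) (pf (Az (mo F D) n p.2)) :=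
      fun h => hnc (isCoprime_of_disjoint hA hB h)
    rw [Finset.not_disjoint_iff] at h0
    obtain ⟨r, hr1, hr2⟩ := h0
    have hr1' := mem_pf' hr1
    have hr2' := mem_pf' hr2
    have h2 := bad_deg hr1'.1 hr1'.2.1 hr1'.2.2
    have h3 := natDegree_le_of_dvd hr1'.2.2 hA.ne_zero
    rw [hd, ← hu] at h3
    rw [Finset.mem_biUnion]
    refine ⟨r.natDegree, Finset.mem_Icc.2 ⟨h2, h3⟩, ?_⟩
    rw [Finset.mem_biUnion]
    exact ⟨r, mem_Pr.2 ⟨hr1'.1, rfl, hr1'.2.1⟩, Finset.mem_product.2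
      ⟨Finset.mem_filter.2 ⟨hx, hr1'.2.2⟩, Finset.mem_filter.2 ⟨hy, hr2'.2.2⟩⟩⟩
  have h1 : (((Lt F n ×ˢ Lt F n).filter fun p =>
      ¬ IsCoprime (Az (mo F D) n p.1) (Az (mo F D) n p.2)).card : ℝ) ≤
      ∑ k ∈ Finset.Icc (D + 1) (n + u), ∑ r ∈ Pr F k,
        ((((Lt F n).filter fun z => r ∣ Az (mo F D) n z) ×ˢ
          ((Lt F n).filter fun z => r ∣ Az (mo F D) n z)).card : ℝ) := by
    have h2 := (Finset.card_le_card hsub).trans (Finset.card_biUnion_le.trans
      (Finset.sum_le_sum fun k _ => Finset.card_biUnion_le))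
    exact_mod_cast h2
  refine h1.trans ?_
  refine le_trans (Finset.sum_le_sum fun k hk => ?_)
    (bad_sum (q := Nat.card F) (A := (Nat.card F : ℝ) ^ (2 * n)) hq2 (by positivity) D (n + u))
  rw [Finset.mem_Icc] at hk
  have h2 : ∀ r ∈ Pr F k, ((((Lt F n).filter fun z => r ∣ Az (mo F D) n z) ×ˢ
      ((Lt F n).filter fun z => r ∣ Az (mo F D) n z)).card : ℝ) ≤
      ((Nat.card F : ℝ) ^ n / (Nat.card F : ℝ) ^ k) ^ 2 + 1 := by
    intro r hr
    have hr' := mem_Pr.1 hr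
    have h3 := bad_card (n := n) (D := D) (Q := r) hr'.1 (mo_cop (by omega) hr)
    rw [hr'.2.1] at h3
    rw [Finset.card_product]
    push_cast
    set c : ℝ := (((Lt F n).filter fun z => r ∣ Az (mo F D) n z).card : ℝ) with hc
    have hc0 : 0 ≤ c := Nat.cast_nonneg _
    have h4 : 0 ≤ (Nat.card F : ℝ) ^ n / (Nat.card F : ℝ) ^ k := by positivity
    rcases h3 with h3 | h3
    · have h5 := mul_le_mul h3 h3 hc0 h4
      rw [sq]
      linarith
    · have h5 := mul_le_mul h3 h3 hc0 zero_le_one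
      have h6 := sq_nonneg ((Nat.card F : ℝ) ^ n / (Nat.card F : ℝ) ^ k)
      linarith
  refine (Finset.sum_le_sum h2).trans ?_
  rw [Finset.sum_const, nsmul_eq_mul]
  have h3 : ((Pr F k).card : ℝ) ≤ (Nat.card F : ℝ) ^ k := by exact_mod_cast card_Pr_le k
  refine (mul_le_mul_of_nonneg_right h3 (by positivity)).trans (le_of_eq ?_)
  rw [mul_add, mul_one, div_pow, ← pow_mul, ← pow_mul, mul_comm n 2, mul_comm k 2, two_mul k,
    pow_add _ k k]
  congr 1
  field_simp

theorem bad3 (h2 : (2 : F) ≠ 0) {m : F[X]} {x y : F[X]}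
    (h3 : Squarefree (Az m n x)) (h4 : Squarefree (Az m n y))
    (h5 : Squarefree (Az m n (C 2⁻¹ * (x + y)))) (h6 : IsCoprime (Az m n x) (Az m n y)) :
    Squarefree (Az m n x * Az m n y * (-(Az m n x + Az m n y))) := by
  have h7 : Squarefree (-(Az m n x + Az m n y)) := by
    rw [az_add h2]
    have h8 : -(C 2 * Az m n (C 2⁻¹ * (x + y))) = C (-2) * Az m n (C 2⁻¹ * (x + y)) := by
      rw [C_neg, neg_mul]
    rw [h8, squarefree_mul_iff]
    have h9 : IsUnit (C (-2 : F)) := isUnit_C.2 (neg_ne_zero.2 h2).isUnit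
    exact ⟨h9.isRelPrime_left, h9.squarefree, h5⟩
  rw [squarefree_mul_iff]
  refine ⟨?_, squarefree_mul_iff.2 ⟨h6.isRelPrime, h3, h4⟩, h7⟩
  refine IsCoprime.isRelPrime ?_
  refine IsCoprime.neg_right ?_
  obtain ⟨a, b, hab⟩ := h6
  refine IsCoprime.mul_left ?_ ?_
  · exact ⟨a - b, b, by rw [← hab]; ring⟩
  · exact ⟨b - a, a, by rw [← hab]; ring⟩

end Pool.Agent.H3.SD
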