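import Mathlib

set_option autoImplicit false

/-!
# [H3 SD CIR] The circle method on a finite abelian group

`G` a finite abelian group, `hat f ψ = ∑ x, f x * ψ x` for the characters `ψ : AddChar G ℂ` (values of absolute value `1`, `card G` characters; Mathlib: `AddChar.sum_apply_eq_ite` / `AddChar.sum_eq_ite`, `AddChar.card_eq`, `AddChar.map_neg_eq_conj`).
* `par`: Parseval: `∑ ψ, ‖hat g ψ‖ ^ 2 = card G * ∑ x, g x ^ 2 ≤ card G ^ 2` for `0 ≤ g ≤ 1` (expand the square, `ψ (x - y)`, sum over `ψ`).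
* `cir`: `h s = (1 / card G) ∑ ψ, conj (ψ s) * hat h ψ`, so `∑ x, ∑ y, f x g y h (x + y) = (1 / card G) ∑ ψ, hat h ψ * conj (hat f ψ * hat g ψ)` (`f, g` real).  The trivial character gives the main term; for the others `‖hat f ψ‖ ≤ E`, so their sum is at most
  `(E / card G) ∑ ψ, ‖hat g ψ‖ ‖hat h ψ‖ ≤ (E / card G) (card G ^ 2)^(1/2) (card G ^ 2)^(1/2) = E * card G` (Cauchy-Schwarz, or `2 x y ≤ x ^ 2 + y ^ 2`).  (`E ≥ 0` if there is a non-trivial character; if there is none the sum over the others is empty: `0 ≤ E` is assumed.)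
-/

namespace Pool.Agent.H3.SD

open ComplexConjugate

private noncomputable def ft {G : Type} [AddCommGroup G] [Fintype G] (f : G → ℝ)
    (ψ : AddChar G ℂ) : ℂ := ∑ x, (f x : ℂ) * ψ x

private theorem ft_conj {G : Type} [AddCommGroup G] [Fintype G] (f : G → ℝ) (ψ : AddChar G ℂ) :
    conj (ft f ψ) = ∑ x, (f x : ℂ) * ψ (-x) := by
  unfold ft
  rw [map_sum]
  refine Finset.sum_congr rfl fun x _ => ?_
  rw [map_mul, Complex.conj_ofReal, AddChar.map_neg_eq_conj]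

private theorem cir_par {G : Type} [AddCommGroup G] [Fintype G] (g : G → ℝ) :
    ∑ ψ : AddChar G ℂ, ‖ft g ψ‖ ^ 2 = (Fintype.card G : ℝ) * ∑ x, g x ^ 2 := by
  classical
  have h0 : ((∑ ψ : AddChar G ℂ, ‖ft g ψ‖ ^ 2 : ℝ) : ℂ) =
      (((Fintype.card G : ℝ) * ∑ x, g x ^ 2 : ℝ) : ℂ) := by
    push_cast
    have h1 : ∀ ψ : AddChar G ℂ, ((‖ft g ψ‖ : ℝ) : ℂ) ^ 2 =
        ∑ x, ∑ y, (g x : ℂ) * g y * ψ (x - y) := by
      intro ψ
      rw [← Complex.mul_conj', ft_conj]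
      unfold ft
      rw [Finset.sum_mul_sum]
      refine Finset.sum_congr rfl fun x _ => Finset.sum_congr rfl fun y _ => ?_
      rw [sub_eq_add_neg, AddChar.map_add_eq_mul]
      ring
    rw [Finset.sum_congr rfl fun ψ _ => h1 ψ, Finset.sum_comm, Finset.mul_sum]
    refine Finset.sum_congr rfl fun x _ => ?_
    rw [Finset.sum_comm]
    have h2 : ∀ y : G, ∑ ψ : AddChar G ℂ, (g x : ℂ) * g y * ψ (x - y) =
        if y = x then (g x : ℂ) * g y * (Fintype.card G : ℂ) else 0 := by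
      intro y
      rw [← Finset.mul_sum, AddChar.sum_apply_eq_ite]
      by_cases h : y = x
      · rw [if_pos h, if_pos (by rw [h, sub_self])]
      · rw [if_neg h, if_neg (fun hh => h (sub_eq_zero.1 hh).symm), mul_zero]
    rw [Finset.sum_congr rfl fun y _ => h2 y, Finset.sum_ite_eq', if_pos (Finset.mem_univ _)]
    ring
  exact_mod_cast h0

private theorem cir_main {G : Type} [AddCommGroup G] [Fintype G] (f g h : G → ℝ) :
    (Fintype.card G : ℂ) * ∑ x, ∑ y, (f x : ℂ) * g y * h (x + y) =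
      ∑ ψ : AddChar G ℂ, conj (ft f ψ) * conj (ft g ψ) * ft h ψ := by
  classical
  have h1 : ∀ ψ : AddChar G ℂ, conj (ft f ψ) * conj (ft g ψ) * ft h ψ =
      ∑ x, ∑ y, ∑ z, (f x : ℂ) * g y * h z * ψ (z - (x + y)) := by
    intro ψ
    rw [ft_conj, ft_conj, Finset.sum_mul_sum]
    unfold ft
    rw [Finset.sum_mul]
    refine Finset.sum_congr rfl fun x _ => ?_
    rw [Finset.sum_mul_sum]
    refine Finset.sum_congr rfl fun y _ => Finset.sum_congr rfl fun z _ => ?_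
    have : z - (x + y) = z + (-x + -y) := by abel
    rw [this, AddChar.map_add_eq_mul, AddChar.map_add_eq_mul]
    ring
  have h1s : ∑ ψ : AddChar G ℂ, conj (ft f ψ) * conj (ft g ψ) * ft h ψ =
      ∑ ψ : AddChar G ℂ, ∑ x, ∑ y, ∑ z, (f x : ℂ) * g y * h z * ψ (z - (x + y)) :=
    Finset.sum_congr rfl fun ψ _ => h1 ψ
  rw [h1s, Finset.mul_sum]
  conv_rhs => rw [Finset.sum_comm]
  refine Finset.sum_congr rfl fun x _ => ?_
  rw [Finset.sum_comm, Finset.mul_sum]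
  refine Finset.sum_congr rfl fun y _ => ?_
  rw [Finset.sum_comm]
  have h2 : ∀ z : G, ∑ ψ : AddChar G ℂ, (f x : ℂ) * g y * h z * ψ (z - (x + y)) =
      if z = x + y then (f x : ℂ) * g y * h z * (Fintype.card G : ℂ) else 0 := by
    intro z
    rw [← Finset.mul_sum, AddChar.sum_apply_eq_ite]
    by_cases hz : z = x + y
    · rw [if_pos hz, if_pos (by rw [hz, sub_self])]
    · rw [if_neg hz, if_neg (fun hh => hz (sub_eq_zero.1 hh)), mul_zero]
  rw [Finset.sum_congr rfl fun z _ => h2 z, Finset.sum_ite_eq', if_pos (Finset.mem_univ _)]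
  ring

private theorem cir_sq {G : Type} [AddCommGroup G] [Fintype G] (g : G → ℝ)
    (hg : ∀ x, 0 ≤ g x ∧ g x ≤ 1) :
    ∑ ψ : AddChar G ℂ, ‖ft g ψ‖ ^ 2 ≤ (Fintype.card G : ℝ) ^ 2 := by
  rw [cir_par, sq]
  apply mul_le_mul_of_nonneg_left _ (Nat.cast_nonneg _)
  calc ∑ x, g x ^ 2 ≤ ∑ _x : G, (1 : ℝ) := Finset.sum_le_sum fun x _ => by
        have := hg x
        nlinarith
    _ = (Fintype.card G : ℝ) := by simp

theorem cir {G : Type} [AddCommGroup G] [Fintype G] (f g h : G → ℝ)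
    (hf : ∀ x, 0 ≤ f x ∧ f x ≤ 1) (hg : ∀ x, 0 ≤ g x ∧ g x ≤ 1) (hh : ∀ x, 0 ≤ h x ∧ h x ≤ 1)
    {E : ℝ} (hE0 : 0 ≤ E)
    (hE : ∀ ψ : AddChar G ℂ, (∃ x, ψ x ≠ 1) → ‖∑ x, (f x : ℂ) * ψ x‖ ≤ E) :
    |∑ x, ∑ y, f x * g y * h (x + y) -
      (∑ x, f x) * (∑ x, g x) * (∑ x, h x) / (Fintype.card G : ℝ)| ≤
      E * (Fintype.card G : ℝ) := by
  classical
  have hn : (0 : ℝ) < Fintype.card G := by exact_mod_cast Fintype.card_pos
  set n : ℝ := (Fintype.card G : ℝ) with hndef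
  set S : ℝ := ∑ x, ∑ y, f x * g y * h (x + y) with hS
  have hone : ∀ u : G → ℝ, ft u 1 = ((∑ x, u x : ℝ) : ℂ) := by
    intro u
    unfold ft
    push_cast
    refine Finset.sum_congr rfl fun x _ => ?_
    exact mul_one _
  have h1 : ((n * S - (∑ x, f x) * (∑ x, g x) * (∑ x, h x) : ℝ) : ℂ) =
      ∑ ψ ∈ (Finset.univ : Finset (AddChar G ℂ)).erase 1,
        conj (ft f ψ) * conj (ft g ψ) * ft h ψ := by
    have h2 := cir_main f g h
    rw [← Finset.add_sum_erase _ _ (Finset.mem_univ (1 : AddChar G ℂ)), hone, hone, hone,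
      Complex.conj_ofReal, Complex.conj_ofReal] at h2
    have h3 : ∑ ψ ∈ (Finset.univ : Finset (AddChar G ℂ)).erase 1,
        conj (ft f ψ) * conj (ft g ψ) * ft h ψ =
        (Fintype.card G : ℂ) * ∑ x, ∑ y, (f x : ℂ) * g y * h (x + y) -
          ((∑ x, f x : ℝ) : ℂ) * ((∑ x, g x : ℝ) : ℂ) * ((∑ x, h x : ℝ) : ℂ) := by
      rw [h2]
      ring
    rw [h3, hS, hndef]
    push_cast
    ring
  have h4 : ‖∑ ψ ∈ (Finset.univ : Finset (AddChar G ℂ)).erase 1,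
        conj (ft f ψ) * conj (ft g ψ) * ft h ψ‖ ≤ E * n ^ 2 := by
    refine (norm_sum_le _ _).trans ?_
    have h5 : ∀ ψ ∈ (Finset.univ : Finset (AddChar G ℂ)).erase 1,
        ‖conj (ft f ψ) * conj (ft g ψ) * ft h ψ‖ ≤
          E * ((‖ft g ψ‖ ^ 2 + ‖ft h ψ‖ ^ 2) / 2) := by
      intro ψ hψ
      have hne : ψ ≠ 1 := (Finset.mem_erase.1 hψ).1
      rw [norm_mul, norm_mul, RCLike.norm_conj, RCLike.norm_conj, mul_assoc]
      have h6 : ‖ft f ψ‖ ≤ E := hE ψ (AddChar.ne_one_iff.1 hne)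
      have h7 : ‖ft g ψ‖ * ‖ft h ψ‖ ≤ (‖ft g ψ‖ ^ 2 + ‖ft h ψ‖ ^ 2) / 2 := by
        nlinarith [sq_nonneg (‖ft g ψ‖ - ‖ft h ψ‖)]
      exact mul_le_mul h6 h7 (by positivity) hE0
    refine (Finset.sum_le_sum h5).trans ?_
    rw [← Finset.mul_sum]
    apply mul_le_mul_of_nonneg_left _ hE0
    calc ∑ ψ ∈ (Finset.univ : Finset (AddChar G ℂ)).erase 1, (‖ft g ψ‖ ^ 2 + ‖ft h ψ‖ ^ 2) / 2
        ≤ ∑ ψ : AddChar G ℂ, (‖ft g ψ‖ ^ 2 + ‖ft h ψ‖ ^ 2) / 2 :=
          Finset.sum_le_sum_of_subset_of_nonneg (Finset.erase_subset _ _)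
            fun _ _ _ => by positivity
      _ = (∑ ψ : AddChar G ℂ, ‖ft g ψ‖ ^ 2 + ∑ ψ : AddChar G ℂ, ‖ft h ψ‖ ^ 2) / 2 := by
          rw [← Finset.sum_div, Finset.sum_add_distrib]
      _ ≤ n ^ 2 := by
          have a1 := cir_sq g hg
          have a2 := cir_sq h hh
          linarith
  rw [← h1, Complex.norm_real, Real.norm_eq_abs] at h4
  have h8 : S - (∑ x, f x) * (∑ x, g x) * (∑ x, h x) / n =
      (n * S - (∑ x, f x) * (∑ x, g x) * (∑ x, h x)) / n := by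
    field_simp
  rw [h8, abs_div, abs_of_pos hn, div_le_iff₀ hn]
  calc |n * S - (∑ x, f x) * (∑ x, g x) * (∑ x, h x)| ≤ E * n ^ 2 := h4
    _ = E * n * n := by ring

end Pool.Agent.H3.SD
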