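import Pool.Agent.H3.SD.Defs
import Pool.Agent.H3.SD.CIR

set_option autoImplicit false

/-!
# [H3 SD CPL] The circle method on the polynomials of degree less than `n`

`cir` for `G = degreeLT F n` (the subspace of the polynomials of degree `< n`, finite, `card G = q ^ n` (`card_Lt`); `x ∈ degreeLT F n ↔ x ∈ Lt F n` by `mem_degreeLT`, `mem_Lt`; sums over `G` are sums over `Lt F n`, `Finset.sum_coe_sort` or `Finset.sum_bij`).
A character `φ` of `G` is extended to `F[X]` by `ψ x = φ ⟨x %ₘ X ^ n, _⟩` (`degree_modByMonic_lt`, `monic_X_pow`; additive: `add_modByMonic`), with `ψ x = φ x` for `x ∈ G` (`modByMonic_eq_self_iff`); if `φ` is not trivial then `ψ g ≠ 1` for some `g ∈ Lt F n`.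
-/

namespace Pool.Agent.H3.SD

open Polynomial
open Pool.Agent.H94.PC

variable {F : Type} [Field F] [Finite F]

/-- reduction modulo `X ^ n` -/
private noncomputable def cplRed (F : Type) [Field F] (n : ℕ) : F[X] →+ degreeLT F n where
  toFun x := ⟨x %ₘ X ^ n, by
    rw [mem_degreeLT]
    have h := degree_modByMonic_lt x (monic_X_pow (R := F) n)
    rwa [degree_X_pow] at h⟩
  map_zero' := by
    apply Subtype.ext
    exact zero_modByMonic _
  map_add' x y := by
    apply Subtype.ext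
    exact add_modByMonic _ _

private theorem cplRed_self {n : ℕ} (x : degreeLT F n) : cplRed F n x.1 = x := by
  apply Subtype.ext
  have h := (mem_degreeLT.1 x.2)
  exact (modByMonic_eq_self_iff (monic_X_pow (R := F) n)).2 (by rwa [degree_X_pow])

theorem cpl {n : ℕ} (f g h : F[X] → ℝ)
    (hf : ∀ x, 0 ≤ f x ∧ f x ≤ 1) (hg : ∀ x, 0 ≤ g x ∧ g x ≤ 1) (hh : ∀ x, 0 ≤ h x ∧ h x ≤ 1)
    {E : ℝ} (hE0 : 0 ≤ E)
    (hE : ∀ ψ : AddChar F[X] ℂ, (∃ x ∈ Lt F n, ψ x ≠ 1) →
      ‖∑ x ∈ Lt F n, (f x : ℂ) * ψ x‖ ≤ E) :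
    |∑ x ∈ Lt F n, ∑ y ∈ Lt F n, f x * g y * h (x + y) -
      (∑ x ∈ Lt F n, f x) * (∑ x ∈ Lt F n, g x) * (∑ x ∈ Lt F n, h x) /
        (Nat.card F : ℝ) ^ n| ≤ E * (Nat.card F : ℝ) ^ n := by
  classical
  have hfin : Finite (degreeLT F n) := Finite.of_equiv _ (degreeLTEquiv F n).symm.toEquiv
  let _ : Fintype (degreeLT F n) := Fintype.ofFinite _
  have hmem : ∀ x, x ∈ Lt F n ↔ x ∈ degreeLT F n := fun x => by
    rw [mem_Lt, mem_degreeLT]
  have hsum : ∀ {A : Type} [AddCommMonoid A] (u : F[X] → A),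
      ∑ x ∈ Lt F n, u x = ∑ x : degreeLT F n, u x.1 := fun u =>
    Finset.sum_subtype (Lt F n) hmem u
  have hcard : (Fintype.card (degreeLT F n) : ℝ) = (Nat.card F : ℝ) ^ n := by
    have h1 : Fintype.card (degreeLT F n) = (Lt F n).card := by
      have h2 := hsum (A := ℕ) (fun _ => 1)
      rw [Finset.sum_const, Finset.sum_const, smul_eq_mul, smul_eq_mul, mul_one, mul_one] at h2
      exact h2.symm
    rw [h1, card_Lt]
    push_cast
    rfl
  have key := cir (G := degreeLT F n) (fun x => f x.1) (fun x => g x.1) (fun x => h x.1)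
    (fun x => hf x.1) (fun x => hg x.1) (fun x => hh x.1) hE0 (by
      intro φ hφ
      obtain ⟨x0, hx0⟩ := hφ
      have h1 : ∀ x : degreeLT F n, (φ.compAddMonoidHom (cplRed F n)) x.1 = φ x := by
        intro x
        show φ (cplRed F n x.1) = φ x
        rw [cplRed_self]
      have h2 := hE (φ.compAddMonoidHom (cplRed F n)) ⟨x0.1, (hmem _).2 x0.2, by
        rw [h1]
        exact hx0⟩
      rw [hsum] at h2
      simp only [h1] at h2
      exact h2)
  rw [hcard] at key
  rw [hsum, hsum, hsum, hsum]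
  have e : ∑ x : degreeLT F n, ∑ y ∈ Lt F n, f x.1 * g y * h (x.1 + y) =
      ∑ x : degreeLT F n, ∑ y : degreeLT F n, f x.1 * g y.1 * h ((x + y : degreeLT F n) : F[X]) :=
    Finset.sum_congr rfl fun x _ => hsum _
  rw [e]
  exact key

end Pool.Agent.H3.SD
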