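import Pool.Agent.H94.PS.Defs
import Pool.Agent.H74.ST.Sup

set_option autoImplicit false

/-!
# [H3 SD Defs] Polynomials in a residue class with a large prime factor

`Az m n z = m (X ^ n + z) + 1`; for `deg z < n` these are the monic polynomials of degree `n + deg m` which are `1` modulo `m`.
-/

namespace Pool.Agent.H3.SD

open Polynomial
open Pool.Agent.H94.PC
open Pool.Agent.H94.PS

section
variable (F : Type) [Field F] [Finite F]

/-- the product of the squares of the monic irreducible polynomials of degree at most `D` -/
noncomputable def mo (D : ℕ) : F[X] := ∏ k ∈ Finset.range (D + 1), ∏ P ∈ Pr F k, P ^ 2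

end

section
variable {F : Type} [Field F] [Finite F]

/-- the polynomial with the parameter `z` in the residue class -/
noncomputable def Az (m : F[X]) (n : ℕ) (z : F[X]) : F[X] := m * (X ^ n + z) + 1

open Classical in
/-- `1` if `Az m n z` has a prime factor of degree between `d - e` and `d - a`, `d = n + deg m` -/
noncomputable def gz (m : F[X]) (n a e : ℕ) (z : F[X]) : ℝ :=
  if ∃ P ∈ pf (Az m n z), n + m.natDegree ≤ P.natDegree + e ∧
    P.natDegree + a ≤ n + m.natDegree then 1 else 0

end

end Pool.Agent.H3.SD
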