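import Pool.Agent.H3.SD.Defs

set_option autoImplicit false

/-!
# [H3 SD RHO] The mass of the large primes

For `m ≥ 3`: `q ^ m ≤ m π(m) + 2 q ^ (m / 2)` (`H74.ST.card_le_Pr`) and `4 q ^ (m / 2) ≤ q ^ m` (`q ^ (m - m / 2) ≥ q ^ 2 ≥ 4`), so `π(m) / q ^ m ≥ 1 / (2 m)`.  `e = ⌊ε d⌋`, `d - α ≥ 3` for `α ≤ e` and large `d` (`ε ≤ 1 / 2`), `1 / (2 (d - α)) ≥ 1 / (2 d)`, the number of `α ∈ Icc a e` is `e + 1 - a ≥ ε d - a`,
so the sum is at least `(ε d - a) / (2 d) ≥ ε / 4` for `d ≥ 2 a / ε`.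
-/

namespace Pool.Agent.H3.SD

open Polynomial
open Pool.Agent.H94.PC

variable (F : Type) [Field F] [Finite F]

private theorem rho_term {m : ℕ} (hm : 3 ≤ m) :
    1 / (2 * (m : ℝ)) ≤ ((Pr F m).card : ℝ) / (Nat.card F : ℝ) ^ m := by
  have hq : 2 ≤ Nat.card F := Finite.one_lt_card
  have h1 := Pool.Agent.H74.ST.card_le_Pr (F := F) (show 1 ≤ m by omega)
  have h2 : 4 * Nat.card F ^ (m / 2) ≤ Nat.card F ^ m := by
    have e : m = (m - m / 2) + m / 2 := by omega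
    calc 4 * Nat.card F ^ (m / 2) = 2 ^ 2 * Nat.card F ^ (m / 2) := by norm_num
      _ ≤ Nat.card F ^ (m - m / 2) * Nat.card F ^ (m / 2) := by
          apply Nat.mul_le_mul_right
          calc 2 ^ 2 ≤ 2 ^ (m - m / 2) := Nat.pow_le_pow_right (by norm_num) (by omega)
            _ ≤ Nat.card F ^ (m - m / 2) := Nat.pow_le_pow_left hq _
      _ = Nat.card F ^ m := by rw [← pow_add, ← e]
  have h3 : Nat.card F ^ m ≤ 2 * (m * (Pr F m).card) := by omega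
  have h4 : (Nat.card F : ℝ) ^ m ≤ 2 * (m * (Pr F m).card) := by exact_mod_cast h3
  have hm0 : (0 : ℝ) < m := by exact_mod_cast (by omega : 0 < m)
  have hq0 : (0 : ℝ) < (Nat.card F : ℝ) ^ m := by
    have : (0 : ℝ) < Nat.card F := by exact_mod_cast (by omega : 0 < Nat.card F)
    positivity
  rw [div_le_div_iff₀ (by positivity) hq0]
  linarith

theorem rho {ε : ℝ} (h0 : 0 < ε) (h1 : ε ≤ 1 / 2) (a : ℕ) : ∃ d₀ : ℕ, ∀ d : ℕ, d₀ ≤ d →
    ε / 4 ≤ ∑ α ∈ Finset.Icc a ⌊ε * d⌋₊,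
      ((Pr F (d - α)).card : ℝ) / (Nat.card F : ℝ) ^ (d - α) := by
  refine ⟨max 6 ⌈2 * a / ε⌉₊, fun d hd => ?_⟩
  have hd6 : 6 ≤ d := (le_max_left _ _).trans hd
  have hda : 2 * (a : ℝ) / ε ≤ d :=
    (Nat.le_ceil _).trans (by exact_mod_cast (le_max_right _ _).trans hd)
  have hd0 : (6 : ℝ) ≤ d := by exact_mod_cast hd6
  have hda' : 2 * (a : ℝ) ≤ ε * d := by
    rw [div_le_iff₀ h0] at hda
    linarith
  have hfl : (⌊ε * d⌋₊ : ℝ) ≤ ε * d := Nat.floor_le (by positivity)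
  have hterm : ∀ α ∈ Finset.Icc a ⌊ε * d⌋₊, 1 / (2 * (d : ℝ)) ≤
      ((Pr F (d - α)).card : ℝ) / (Nat.card F : ℝ) ^ (d - α) := by
    intro α hα
    rw [Finset.mem_Icc] at hα
    have h2 : (α : ℝ) ≤ ε * d := le_trans (by exact_mod_cast hα.2) hfl
    have h3 : 2 * (α : ℝ) ≤ d := by nlinarith
    have h4 : 2 * α ≤ d := by exact_mod_cast h3
    refine le_trans ?_ (rho_term F (m := d - α) (by omega))
    apply one_div_le_one_div_of_le
    · have : (0 : ℝ) < ((d - α : ℕ) : ℝ) := by exact_mod_cast (by omega : 0 < d - α)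
      positivity
    · have : ((d - α : ℕ) : ℝ) ≤ d := by exact_mod_cast Nat.sub_le _ _
      linarith
  have hsum := Finset.card_nsmul_le_sum _ _ _ hterm
  refine le_trans ?_ hsum
  rw [nsmul_eq_mul, Nat.card_Icc]
  have hlt : ε * d < (⌊ε * d⌋₊ : ℝ) + 1 := Nat.lt_floor_add_one _
  have hc : ε * d - a ≤ ((⌊ε * d⌋₊ + 1 - a : ℕ) : ℝ) := by
    have h5 : a ≤ ⌊ε * d⌋₊ + 1 := by
      have : (a : ℝ) < (⌊ε * d⌋₊ : ℝ) + 1 := by
        have : (0 : ℝ) ≤ a := Nat.cast_nonneg a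
        linarith
      exact_mod_cast this.le
    rw [Nat.cast_sub h5]
    push_cast
    linarith
  calc ε / 4 = (ε * d / 2) * (1 / (2 * d)) := by field_simp; ring
    _ ≤ (ε * d - a) * (1 / (2 * d)) := by
        apply mul_le_mul_of_nonneg_right _ (by positivity)
        linarith
    _ ≤ _ := mul_le_mul_of_nonneg_right hc (by positivity)

end Pool.Agent.H3.SD
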