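import Pool.Agent.H3.SD.GF
import Pool.Agent.H3.SD.CPL
import Pool.Agent.H3.SD.RHO
import Pool.Agent.H3.SD.BAD

set_option autoImplicit false

/-!
# [H3 SD FIN] The density of the family

* `gd_fam`: `Y = ![Az x, Az y, -(Az x + Az y)]` for `x, y ∈ Lt F n`, `w = C 2⁻¹ * (x + y)`, with `gz x = gz y = gz w = 1` and squarefree product is in `Fam F d e`, `d = n + deg m`: `Tr`: degrees by `az_mon` (`w ∈ Lt F n`), `az_add`; each `Y i` has a prime factor of degree `≥ d - e` (`pf (C c * A) = pf A`, or `mem_pf`).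
* `st4`: it suffices to treat `ε ≤ 1 / 4` (`Fam F d e ⊆ Fam F d e'` for `e ≤ e'`).  `q = card F ≥ 2`, `η = ε / 4`.  Choose `D` with `4 / q ^ D ≤ η ^ 3 / 8`, `m = mo F D`, `u = deg m`, `a = u + a'` with `2 q / q ^ a' ≤ η ^ 3 / 8`.  For `d ≥ d₀`: `n = d - u > 0`, `e = ⌊ε d⌋`, `2 e < d`, `D < d - e`, `rho`, and
  `6 q ^ ((n + u) / 2) / q ^ n + 2 q ^ u / q ^ n ≤ η ^ 3 / 8`.
  `ρ = ∑_{α ∈ Icc a e} π(d - α) / q ^ (d - α) ≥ η` and `∑ z ∈ Lt F n, gz z = q ^ n ρ` (`gz_mean`: `q ^ (α - u) = q ^ n / q ^ (d - α)`).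
  `cpl` with `f = g = gz m n a e`, `h s = gz m n a e (C 2⁻¹ * s)` (`∑_{s ∈ Lt F n} h s = ∑ gz`: `s ↦ C 2⁻¹ * s` is a bijection of `Lt F n`), `E = 2 q ^ (n + u + 1 - a)` (`gz_fou`, `mo_cop`): the number `N` of the pairs `(x, y)` with `gz x = gz y = gz w = 1` is at least
  `q ^ (2 n) ρ ^ 3 - 2 q ^ (n + u + 1 - a) q ^ n ≥ q ^ (2 n) (η ^ 3 - η ^ 3 / 8)`.
  The pairs for which `Az x * Az y * (Az x + Az y)` is not squarefree: by `bad3` one of `Az x`, `Az y`, `Az w` is not squarefree (at most `3 * #bad1 * q ^ n` pairs: `(x, y) ↦ (x, w)` is injective) or `Az x`, `Az y` are not coprime (`bad2`), in total at most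
  `4 q ^ (2 n) / q ^ D + 6 q ^ n q ^ ((n + u) / 2) + 2 q ^ (n + u) ≤ q ^ (2 n) (η ^ 3 / 8 + η ^ 3 / 8)`.
  The remaining at least `q ^ (2 n) η ^ 3 / 2` pairs give different elements of `Fam F d e` (`gd_fam`; `Az` is injective in `z` as `m ≠ 0`).  `c₀ = η ^ 3 / (2 q ^ (2 u))`.
-/

namespace Pool.Agent.H3.SD

open Polynomial
open Pool.Agent.H94.PC
open Pool.Agent.H94.PS

variable {F : Type} [Field F] [Finite F]

private theorem lt_half (h2 : (2 : F) ≠ 0) {n : ℕ} {x y : F[X]} (hx : x ∈ Lt F n)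
    (hy : y ∈ Lt F n) : C (2 : F)⁻¹ * (x + y) ∈ Lt F n := by
  rw [mem_Lt] at *
  rw [degree_C_mul (inv_ne_zero h2)]
  exact lt_of_le_of_lt (degree_add_le _ _) (max_lt hx hy)

private theorem gz_one {m : F[X]} {n a e : ℕ} {z : F[X]} (h : gz m n a e z = 1) :
    ∃ P ∈ pf (Az m n z), n + m.natDegree ≤ P.natDegree + e := by
  unfold gz at h
  split_ifs at h with h1
  · obtain ⟨P, hP, h2, _⟩ := h1
    exact ⟨P, hP, h2⟩
  · exact absurd h zero_ne_one

theorem gd_fam (h2 : (2 : F) ≠ 0) {m : F[X]} (hm : m.Monic) {n a e : ℕ} (hn : 0 < n)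
    {x y : F[X]} (hx : x ∈ Lt F n) (hy : y ∈ Lt F n) (g1 : gz m n a e x = 1)
    (g2 : gz m n a e y = 1) (g3 : gz m n a e (C 2⁻¹ * (x + y)) = 1)
    (hs : Squarefree (Az m n x * Az m n y * (-(Az m n x + Az m n y)))) :
    ![Az m n x, Az m n y, -(Az m n x + Az m n y)] ∈ Fam F (n + m.natDegree) e := by
  have hw := lt_half h2 hx hy
  have ax := az_mon hm hn hx
  have ay := az_mon hm hn hy
  have aw := az_mon hm hn hw
  have hadd := az_add h2 m n x y
  have hne : -(Az m n x + Az m n y) ≠ 0 := by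
    rw [hadd, neg_ne_zero]
    exact mul_ne_zero (C_ne_zero.2 h2) aw.1.ne_zero
  rw [mem_Fam]
  refine ⟨⟨?_, ?_, hs⟩, ?_⟩
  · show Az m n x + Az m n y + -(Az m n x + Az m n y) = 0
    ring
  · intro i
    fin_cases i
    · exact ax.2
    · exact ay.2
    · show (-(Az m n x + Az m n y)).natDegree = n + m.natDegree
      rw [natDegree_neg, hadd, natDegree_C_mul h2]
      exact aw.2
  · intro i
    fin_cases i
    · exact gz_one g1
    · exact gz_one g2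
    · obtain ⟨P, hP, h3⟩ := gz_one g3
      refine ⟨P, ?_, h3⟩
      show P ∈ pf (-(Az m n x + Az m n y))
      rw [mem_pf hne]
      obtain ⟨q1, q2, q3⟩ := mem_pf' hP
      refine ⟨q1, q2, ?_⟩
      rw [dvd_neg, hadd]
      exact q3.mul_left _

private theorem az_inj {m : F[X]} (hm : m.Monic) {n : ℕ} {x y : F[X]}
    (h : Az m n x = Az m n y) : x = y := by
  unfold Az at h
  have h1 := mul_left_cancel₀ hm.ne_zero (add_right_cancel h)
  exact add_left_cancel h1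

private theorem gz_cases {m : F[X]} {n a e : ℕ} (z : F[X]) :
    gz m n a e z = 0 ∨ gz m n a e z = 1 := by
  unfold gz
  split_ifs
  · exact Or.inr rfl
  · exact Or.inl rfl

open Classical in
/-- the number of pairs with a product that is not squarefree -/
private theorem bad_all (h2 : (2 : F) ≠ 0) (D : ℕ) {n : ℕ} (hn : 0 < n) :
    (((Lt F n ×ˢ Lt F n).filter fun p => ¬ Squarefree (Az (mo F D) n p.1 * Az (mo F D) n p.2 *
      (-(Az (mo F D) n p.1 + Az (mo F D) n p.2)))).card : ℝ) ≤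
      3 * ((Nat.card F : ℝ) ^ n * ((Nat.card F : ℝ) ^ n / (Nat.card F : ℝ) ^ D +
        2 * (Nat.card F : ℝ) ^ ((n + (mo F D).natDegree) / 2))) +
      ((Nat.card F : ℝ) ^ (2 * n) / (Nat.card F : ℝ) ^ D +
        2 * (Nat.card F : ℝ) ^ (n + (mo F D).natDegree)) := by
  set m := mo F D with hm
  set B : Finset F[X] := (Lt F n).filter fun z => ¬ Squarefree (Az m n z) with hB
  set B2 : Finset (F[X] × F[X]) := (Lt F n ×ˢ Lt F n).filter fun p =>
      ¬ IsCoprime (Az m n p.1) (Az m n p.2) with hB2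
  set B3 : Finset (F[X] × F[X]) := (Lt F n ×ˢ Lt F n).filter fun p =>
      ¬ Squarefree (Az m n (C 2⁻¹ * (p.1 + p.2))) with hB3
  have h1 : ((Lt F n ×ˢ Lt F n).filter fun p => ¬ Squarefree (Az m n p.1 * Az m n p.2 *
      (-(Az m n p.1 + Az m n p.2)))) ⊆ B ×ˢ Lt F n ∪ Lt F n ×ˢ B ∪ B3 ∪ B2 := by
    intro p hp
    rw [Finset.mem_filter, Finset.mem_product] at hp
    obtain ⟨⟨h3, h4⟩, h5⟩ := hp
    by_contra hcon
    simp only [Finset.mem_union, not_or] at hcon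
    obtain ⟨⟨⟨c1, c2⟩, c3⟩, c4⟩ := hcon
    apply h5
    refine bad3 h2 ?_ ?_ ?_ ?_
    · by_contra h
      exact c1 (Finset.mem_product.2 ⟨Finset.mem_filter.2 ⟨h3, h⟩, h4⟩)
    · by_contra h
      exact c2 (Finset.mem_product.2 ⟨h3, Finset.mem_filter.2 ⟨h4, h⟩⟩)
    · by_contra h
      exact c3 (Finset.mem_filter.2 ⟨Finset.mem_product.2 ⟨h3, h4⟩, h⟩)
    · by_contra h
      exact c4 (Finset.mem_filter.2 ⟨Finset.mem_product.2 ⟨h3, h4⟩, h⟩)
  have h3 : B3.card ≤ (Lt F n ×ˢ B).card := by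
    refine Finset.card_le_card_of_injOn (fun p => (p.1, C 2⁻¹ * (p.1 + p.2))) ?_ ?_
    · intro p hp
      rw [hB3, Finset.mem_coe, Finset.mem_filter, Finset.mem_product] at hp
      rw [Finset.mem_coe, Finset.mem_product]
      exact ⟨hp.1.1, Finset.mem_filter.2 ⟨lt_half h2 hp.1.1 hp.1.2, hp.2⟩⟩
    · rintro ⟨x, y⟩ _ ⟨x', y'⟩ _ h
      have e1 : x = x' := congrArg Prod.fst h
      have e2 : C (2 : F)⁻¹ * (x + y) = C (2 : F)⁻¹ * (x' + y') := congrArg Prod.snd h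
      have hc : C (2 : F)⁻¹ ≠ 0 := C_ne_zero.2 (inv_ne_zero h2)
      have e3 := mul_left_cancel₀ hc e2
      rw [e1] at e3
      rw [e1, add_left_cancel e3]
  have h4 : ((Lt F n ×ˢ Lt F n).filter fun p => ¬ Squarefree (Az m n p.1 * Az m n p.2 *
      (-(Az m n p.1 + Az m n p.2)))).card ≤
      B.card * Nat.card F ^ n + Nat.card F ^ n * B.card + Nat.card F ^ n * B.card + B2.card := by
    refine (Finset.card_le_card h1).trans ?_
    refine (Finset.card_union_le _ _).trans (Nat.add_le_add_right ?_ _)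
    refine (Finset.card_union_le _ _).trans (Nat.add_le_add ?_ ?_)
    · refine (Finset.card_union_le _ _).trans ?_
      rw [Finset.card_product, Finset.card_product, card_Lt]
    · refine h3.trans ?_
      rw [Finset.card_product, card_Lt]
  have h5 : (((Lt F n ×ˢ Lt F n).filter fun p => ¬ Squarefree (Az m n p.1 * Az m n p.2 *
      (-(Az m n p.1 + Az m n p.2)))).card : ℝ) ≤
      3 * ((Nat.card F : ℝ) ^ n * (B.card : ℝ)) + (B2.card : ℝ) := by
    have h6 : (((Lt F n ×ˢ Lt F n).filter fun p => ¬ Squarefree (Az m n p.1 * Az m n p.2 *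
      (-(Az m n p.1 + Az m n p.2)))).card : ℝ) ≤
      (B.card : ℝ) * (Nat.card F : ℝ) ^ n + (Nat.card F : ℝ) ^ n * (B.card : ℝ) +
        (Nat.card F : ℝ) ^ n * (B.card : ℝ) + (B2.card : ℝ) := by exact_mod_cast h4
    refine h6.trans (le_of_eq ?_)
    ring
  refine h5.trans (add_le_add ?_ (bad2 D hn))
  have h7 := bad1 (F := F) D hn
  have h8 : (0 : ℝ) ≤ (Nat.card F : ℝ) ^ n := by positivity
  have h9 := mul_le_mul_of_nonneg_left h7 h8
  linarith

private theorem pow_small {q : ℝ} (hq : 2 ≤ q) {c : ℝ} (hc : 0 < c) (K : ℝ) :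
    ∃ D : ℕ, ∀ s : ℕ, D ≤ s → K / q ^ s ≤ c := by
  have h1 : Filter.Tendsto (fun s : ℕ => |K| * (1 / q) ^ s) Filter.atTop (nhds (|K| * 0)) := by
    refine (tendsto_pow_atTop_nhds_zero_of_lt_one (by positivity) ?_).const_mul _
    rw [div_lt_one (by linarith)]
    linarith
  rw [mul_zero] at h1
  obtain ⟨D, hD⟩ := Filter.eventually_atTop.1 (h1.eventually (gt_mem_nhds hc))
  refine ⟨D, fun s hs => ?_⟩
  have h2 := hD s hs
  refine le_trans ?_ h2.le
  rw [one_div, inv_pow, ← div_eq_mul_inv]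
  exact div_le_div_of_nonneg_right (le_abs_self K) (by positivity)

open Classical in
private theorem st4_aux (h2 : (2 : F) ≠ 0) {ε : ℝ} (hε : 0 < ε) (h4 : ε ≤ 1 / 4) :
    ∃ c₀ : ℝ, 0 < c₀ ∧ ∃ d₀ : ℕ, ∀ d : ℕ, d₀ ≤ d →
      c₀ * (Nat.card F : ℝ) ^ (2 * d) ≤ ((Fam F d ⌊ε * d⌋₊).card : ℝ) := by
  obtain ⟨q, hqd⟩ : ∃ q : ℝ, q = (Nat.card F : ℝ) := ⟨_, rfl⟩
  have hq2 : 2 ≤ q := by
    have : 2 ≤ Nat.card F := Finite.one_lt_card
    rw [hqd]
    exact_mod_cast this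
  have hq0 : 0 < q := by linarith
  have hq1 : 1 ≤ q := by linarith
  obtain ⟨η, hη⟩ : ∃ η : ℝ, η = ε / 4 := ⟨_, rfl⟩
  have hη0 : 0 < η := by rw [hη]; positivity
  have hη3 : 0 < η ^ 3 / 8 := by positivity
  obtain ⟨D, hD⟩ := pow_small hq2 hη3 4
  have hD4 := hD D le_rfl
  obtain ⟨a', ha'⟩ := pow_small hq2 hη3 (2 * q)
  have ha4 := ha' a' le_rfl
  obtain ⟨m, hm⟩ : ∃ m : F[X], m = mo F D := ⟨_, rfl⟩
  obtain ⟨u, hu⟩ : ∃ u : ℕ, u = m.natDegree := ⟨_, rfl⟩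
  have hmm : m.Monic := by rw [hm]; exact mo_monic D
  obtain ⟨s0, hs0⟩ := pow_small hq2 hη3 (8 * q ^ u)
  obtain ⟨d1, hd1⟩ := rho F hε (by linarith) (u + a')
  refine ⟨η ^ 3 / (2 * q ^ (2 * u)), by positivity,
    max d1 (2 * D + 2 * u + a' + 2 * s0 + 2), ?_⟩
  intro d hd
  have hdd1 : d1 ≤ d := (le_max_left _ _).trans hd
  have hdd2 : 2 * D + 2 * u + a' + 2 * s0 + 2 ≤ d := (le_max_right _ _).trans hd
  obtain ⟨n, hn⟩ : ∃ n : ℕ, d = n + u := ⟨d - u, by omega⟩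
  obtain ⟨e, he⟩ : ∃ e : ℕ, e = ⌊ε * d⌋₊ := ⟨_, rfl⟩
  have hn0 : 0 < n := by omega
  have he4 : (e : ℝ) ≤ d / 4 := by
    rw [he]
    refine (Nat.floor_le (by positivity)).trans ?_
    have : (0 : ℝ) ≤ (d : ℝ) := Nat.cast_nonneg _
    nlinarith
  have he4' : 4 * e ≤ d := by
    have h5 : (4 : ℝ) * e ≤ d := by linarith
    exact_mod_cast h5
  have he2 : 2 * e < n + m.natDegree := by rw [← hu, ← hn]; omega
  have hcop : ∀ k, n + m.natDegree ≤ k + e → ∀ P ∈ Pr F k, IsCoprime m P := by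
    intro k hk P hP
    rw [hm]
    refine mo_cop ?_ hP
    rw [← hu, ← hn] at hk
    omega
  obtain ⟨a, haa⟩ : ∃ a : ℕ, a = u + a' := ⟨_, rfl⟩
  have hua : m.natDegree ≤ a := by rw [← hu, haa]; omega
  rw [← he]
  -- the mean
  obtain ⟨g, hg⟩ : ∃ g : F[X] → ℝ, g = gz m n a e := ⟨_, rfl⟩
  obtain ⟨S, hS⟩ : ∃ S : ℝ, S = ∑ z ∈ Lt F n, g z := ⟨_, rfl⟩
  have hSη : q ^ n * η ≤ S := by
    rw [hS, hg, gz_mean hmm hn0 hua he2 hcop]
    have h6 := hd1 d hdd1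
    rw [← he, ← haa] at h6
    rw [← hη] at h6
    have h7 : ∑ α ∈ Finset.Icc a e, ((Pr F (n + m.natDegree - α)).card : ℝ) *
        (Nat.card F : ℝ) ^ (α - m.natDegree) =
        q ^ n * ∑ α ∈ Finset.Icc a e, ((Pr F (d - α)).card : ℝ) /
          (Nat.card F : ℝ) ^ (d - α) := by
      rw [Finset.mul_sum]
      refine Finset.sum_congr rfl fun α hα => ?_
      rw [Finset.mem_Icc] at hα
      rw [← hu, ← hn, ← hqd]
      have h8 : q ^ (α - u) * q ^ (d - α) = q ^ n := by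
        rw [← pow_add]
        congr 1
        omega
      rw [← h8]
      have : q ^ (d - α) ≠ 0 := by positivity
      field_simp
    rw [h7]
    exact mul_le_mul_of_nonneg_left h6 (by positivity)
  have hS0 : 0 ≤ S := le_trans (by positivity) hSη
  -- the third function
  have hh : ∑ s ∈ Lt F n, g (C 2⁻¹ * s) = S := by
    rw [hS]
    have hc : C (2 : F) * C (2 : F)⁻¹ = 1 := by
      rw [← C_mul, mul_inv_cancel₀ h2, C_1]
    refine Finset.sum_nbij' (fun s => C 2⁻¹ * s) (fun s => C 2 * s) ?_ ?_ ?_ ?_ ?_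
    · intro s hs
      rw [mem_Lt] at *
      rw [degree_C_mul (inv_ne_zero h2)]
      exact hs
    · intro s hs
      rw [mem_Lt] at *
      rw [degree_C_mul h2]
      exact hs
    · intro s _
      show C 2 * (C 2⁻¹ * s) = s
      rw [← mul_assoc, hc, one_mul]
    · intro s _
      show C 2⁻¹ * (C 2 * s) = s
      rw [← mul_assoc, mul_comm (C (2 : F)⁻¹), hc, one_mul]
    · intro s _
      rfl
  obtain ⟨E, hE⟩ : ∃ E : ℝ, E = 2 * q ^ (n + u + 1 - a) := ⟨_, rfl⟩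
  have hgr : ∀ x, 0 ≤ g x ∧ g x ≤ 1 := fun x => by rw [hg]; exact gz_range x
  have hcpl := cpl (n := n) g g (fun s => g (C 2⁻¹ * s)) hgr hgr (fun x => hgr _)
    (E := E) (by rw [hE]; positivity) (by
      intro ψ hψ
      rw [hg, hE, hqd, hu]
      exact gz_fou hmm hn0 hua he2 hcop ψ hψ)
  rw [hh, ← hS, ← hqd] at hcpl
  obtain ⟨T, hT⟩ : ∃ T : ℝ, T = ∑ x ∈ Lt F n, ∑ y ∈ Lt F n, g x * g y * g (C 2⁻¹ * (x + y)) :=
    ⟨_, rfl⟩
  rw [← hT] at hcpl
  have hTlow : q ^ (2 * n) * (η ^ 3 - η ^ 3 / 8) ≤ T := by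
    have e1 := (abs_le.1 hcpl).1
    have e2 : q ^ (2 * n) * η ^ 3 ≤ S * S * S / q ^ n := by
      rw [le_div_iff₀ (by positivity)]
      have e3 : q ^ (2 * n) * η ^ 3 * q ^ n = (q ^ n * η) ^ 3 := by ring
      rw [e3]
      calc (q ^ n * η) ^ 3 ≤ S ^ 3 := pow_le_pow_left₀ (by positivity) hSη 3
        _ = S * S * S := by ring
    have e4 : E * q ^ n ≤ q ^ (2 * n) * (η ^ 3 / 8) := by
      have e5 : q ^ (n + u + 1 - a) * q ^ a' = q ^ n * q := by
        rw [← pow_add, ← pow_succ]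
        congr 1
        omega
      have e6 : E * q ^ n = q ^ (2 * n) * (2 * q / q ^ a') := by
        rw [hE]
        have : q ^ a' ≠ 0 := by positivity
        field_simp
        have e7 : q ^ (n + u + 1 - a) * q ^ n * q ^ a' = q ^ (2 * n) * q := by
          calc q ^ (n + u + 1 - a) * q ^ n * q ^ a' =
              (q ^ (n + u + 1 - a) * q ^ a') * q ^ n := by ring
            _ = q ^ n * q * q ^ n := by rw [e5]
            _ = q ^ (2 * n) * q := by ring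
        linarith
      rw [e6]
      exact mul_le_mul_of_nonneg_left ha4 (by positivity)
    have e8 : q ^ (2 * n) * (η ^ 3 - η ^ 3 / 8) =
        q ^ (2 * n) * η ^ 3 - q ^ (2 * n) * (η ^ 3 / 8) := by ring
    rw [e8]
    linarith
  -- good and bad pairs
  obtain ⟨sq, hsq⟩ : ∃ sq : F[X] × F[X] → Prop, sq = fun p => Squarefree (Az m n p.1 *
    Az m n p.2 * (-(Az m n p.1 + Az m n p.2))) := ⟨_, rfl⟩
  obtain ⟨G, hG⟩ : ∃ G : Finset (F[X] × F[X]), G = (Lt F n ×ˢ Lt F n).filter fun p =>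
    (g p.1 = 1 ∧ g p.2 = 1 ∧ g (C 2⁻¹ * (p.1 + p.2)) = 1) ∧ sq p := ⟨_, rfl⟩
  obtain ⟨N, hN⟩ : ∃ N : Finset (F[X] × F[X]), N = (Lt F n ×ˢ Lt F n).filter fun p =>
    ¬ sq p := ⟨_, rfl⟩
  have hTGN : T ≤ (G.card : ℝ) + (N.card : ℝ) := by
    rw [hT, ← Finset.sum_product' (f := fun x y => g x * g y * g (C 2⁻¹ * (x + y)))]
    have e1 : ∀ p ∈ Lt F n ×ˢ Lt F n, g p.1 * g p.2 * g (C 2⁻¹ * (p.1 + p.2)) ≤
        (if (g p.1 = 1 ∧ g p.2 = 1 ∧ g (C 2⁻¹ * (p.1 + p.2)) = 1) ∧ sq p then (1 : ℝ) else 0) +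
        (if ¬ sq p then (1 : ℝ) else 0) := by
      intro p _
      by_cases hs : sq p
      · rw [if_neg (not_not.2 hs), add_zero]
        rcases gz_cases (m := m) (n := n) (a := a) (e := e) p.1 with h | h
        · rw [← hg] at h
          rw [h, zero_mul, zero_mul]
          split_ifs <;> norm_num
        rcases gz_cases (m := m) (n := n) (a := a) (e := e) p.2 with h' | h'
        · rw [← hg] at h'
          rw [h', mul_zero, zero_mul]
          split_ifs <;> norm_num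
        rcases gz_cases (m := m) (n := n) (a := a) (e := e) (C 2⁻¹ * (p.1 + p.2)) with h'' | h''
        · rw [← hg] at h''
          rw [h'', mul_zero]
          split_ifs <;> norm_num
        rw [← hg] at h h' h''
        rw [if_pos ⟨⟨h, h', h''⟩, hs⟩, h, h', h'']
        norm_num
      · rw [if_pos hs]
        have e2 : g p.1 * g p.2 * g (C 2⁻¹ * (p.1 + p.2)) ≤ 1 := by
          have f1 := hgr p.1
          have f2 := hgr p.2
          have f3 := hgr (C 2⁻¹ * (p.1 + p.2))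
          exact mul_le_one₀ (mul_le_one₀ f1.2 f2.1 f2.2) f3.1 f3.2
        have e3 : (0 : ℝ) ≤ (if (g p.1 = 1 ∧ g p.2 = 1 ∧ g (C 2⁻¹ * (p.1 + p.2)) = 1) ∧ sq p
          then (1 : ℝ) else 0) := by split_ifs <;> norm_num
        linarith
    refine (Finset.sum_le_sum e1).trans (le_of_eq ?_)
    rw [Finset.sum_add_distrib, Finset.sum_boole, Finset.sum_boole, hG, hN]
  have hNle : (N.card : ℝ) ≤ q ^ (2 * n) * (η ^ 3 / 8 + η ^ 3 / 8) := by
    have e1 := bad_all h2 D hn0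
    rw [← hm, ← hqd, ← hu] at e1
    rw [hN, hsq]
    refine e1.trans ?_
    have hs1 : s0 ≤ n / 2 := by omega
    have e2 := hs0 (n / 2) hs1
    have e3 : q ^ ((n + u) / 2) ≤ q ^ (n / 2) * q ^ u := by
      rw [← pow_add]
      refine pow_le_pow_right₀ hq1 ?_
      omega
    have e4 : q ^ (n / 2) * q ^ (n / 2) ≤ q ^ n := by
      rw [← pow_add]
      exact pow_le_pow_right₀ hq1 (by omega)
    have e5 : 8 * q ^ u * q ^ (n / 2) ≤ q ^ n * (η ^ 3 / 8) := by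
      have e6 : 8 * q ^ u ≤ η ^ 3 / 8 * q ^ (n / 2) := by
        rwa [div_le_iff₀ (by positivity)] at e2
      calc 8 * q ^ u * q ^ (n / 2) ≤ (η ^ 3 / 8 * q ^ (n / 2)) * q ^ (n / 2) :=
            mul_le_mul_of_nonneg_right e6 (by positivity)
        _ = (q ^ (n / 2) * q ^ (n / 2)) * (η ^ 3 / 8) := by ring
        _ ≤ q ^ n * (η ^ 3 / 8) := mul_le_mul_of_nonneg_right e4 hη3.le
    have e7 : q ^ (2 * n) * (4 / q ^ D) ≤ q ^ (2 * n) * (η ^ 3 / 8) :=
      mul_le_mul_of_nonneg_left hD4 (by positivity)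
    have e8 : 1 ≤ q ^ (n / 2) := one_le_pow₀ hq1
    have e9 : 3 * (q ^ n * (2 * q ^ ((n + u) / 2))) + 2 * q ^ (n + u) ≤
        q ^ n * (8 * q ^ u * q ^ (n / 2)) := by
      have f1 : q ^ n * q ^ ((n + u) / 2) ≤ q ^ n * (q ^ (n / 2) * q ^ u) :=
        mul_le_mul_of_nonneg_left e3 (by positivity)
      have f2 : q ^ (n + u) ≤ q ^ n * (q ^ u * q ^ (n / 2)) := by
        rw [pow_add]
        refine mul_le_mul_of_nonneg_left ?_ (by positivity)
        exact le_mul_of_one_le_right (by positivity) e8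
      nlinarith
    calc 3 * (q ^ n * (q ^ n / q ^ D + 2 * q ^ ((n + u) / 2))) +
          (q ^ (2 * n) / q ^ D + 2 * q ^ (n + u))
        = q ^ (2 * n) * (4 / q ^ D) + (3 * (q ^ n * (2 * q ^ ((n + u) / 2))) +
          2 * q ^ (n + u)) := by ring
      _ ≤ q ^ (2 * n) * (η ^ 3 / 8) + q ^ n * (8 * q ^ u * q ^ (n / 2)) := add_le_add e7 e9
      _ ≤ q ^ (2 * n) * (η ^ 3 / 8) + q ^ n * (q ^ n * (η ^ 3 / 8)) :=
          add_le_add le_rfl (mul_le_mul_of_nonneg_left e5 (by positivity))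
      _ = q ^ (2 * n) * (η ^ 3 / 8 + η ^ 3 / 8) := by ring
  have hGF : (G.card : ℝ) ≤ ((Fam F d e).card : ℝ) := by
    have e1 : G.card ≤ (Fam F d e).card := by
      refine Finset.card_le_card_of_injOn
        (fun p => ![Az m n p.1, Az m n p.2, -(Az m n p.1 + Az m n p.2)]) ?_ ?_
      · intro p hp
        rw [hG, Finset.mem_coe, Finset.mem_filter, Finset.mem_product, hg, hsq] at hp
        obtain ⟨⟨h5, h6⟩, ⟨g1, g2, g3⟩, h7⟩ := hp
        rw [Finset.mem_coe, hn, hu]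
        exact gd_fam h2 hmm hn0 h5 h6 g1 g2 g3 h7
      · rintro ⟨x, y⟩ _ ⟨x', y'⟩ _ h
        have e2 := congrFun h 0
        have e3 := congrFun h 1
        have e4 : x = x' := az_inj hmm e2
        have e5 : y = y' := az_inj hmm e3
        rw [e4, e5]
    exact_mod_cast e1
  have hfin : q ^ (2 * n) * (η ^ 3 / 2) ≤ ((Fam F d e).card : ℝ) := by
    have e1 : q ^ (2 * n) * (η ^ 3 / 2) ≤ q ^ (2 * n) * (η ^ 3 - η ^ 3 / 8) -
        q ^ (2 * n) * (η ^ 3 / 8 + η ^ 3 / 8) := by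
      have : 0 ≤ q ^ (2 * n) * (η ^ 3 / 8) := by positivity
      nlinarith
    linarith
  refine le_trans (le_of_eq ?_) hfin
  rw [← hqd, hn]
  have e1 : q ^ (2 * (n + u)) = q ^ (2 * n) * q ^ (2 * u) := by
    rw [← pow_add]
    congr 1
    ring
  rw [e1]
  have : q ^ (2 * u) ≠ 0 := by positivity
  field_simp

theorem st4 (h2 : (2 : F) ≠ 0) {ε : ℝ} (hε : 0 < ε) : ∃ c₀ : ℝ, 0 < c₀ ∧ ∃ d₀ : ℕ,
    ∀ d : ℕ, d₀ ≤ d → c₀ * (Nat.card F : ℝ) ^ (2 * d) ≤ ((Fam F d ⌊ε * d⌋₊).card : ℝ) := by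
  obtain ⟨c, hc, d0, h⟩ := st4_aux (F := F) h2 (ε := min ε (1 / 4)) (lt_min hε (by norm_num))
    (min_le_right _ _)
  refine ⟨c, hc, d0, fun d hd => (h d hd).trans ?_⟩
  have h1 : ⌊min ε (1 / 4) * d⌋₊ ≤ ⌊ε * d⌋₊ :=
    Nat.floor_le_floor (mul_le_mul_of_nonneg_right (min_le_left _ _) (Nat.cast_nonneg _))
  have h3 : (Fam F d ⌊min ε (1 / 4) * d⌋₊).card ≤ (Fam F d ⌊ε * d⌋₊).card := by
    refine Finset.card_le_card fun Y hY => ?_
    rw [mem_Fam] at *
    exact ⟨hY.1, fun i => by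
      obtain ⟨P, hP, h4⟩ := hY.2 i
      exact ⟨P, hP, h4.trans (Nat.add_le_add_left h1 _)⟩⟩
  exact_mod_cast h3

end Pool.Agent.H3.SD
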