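import Pool.Agent.H3.SD.RC

set_option autoImplicit false

/-!
# [H3 SD GF] The Fourier coefficients of the indicator

`d = n + deg m`, `deg m ≤ a`, `2 e < d`, the primes of degree `≥ d - e` are prime to `m`.
* `gz_sum`: for `z ∈ Lt F n` with `gz z = 1` there is exactly one pair `(α, P)`, `α ∈ Icc a e`, `P ∈ Pr F (d - α)`, `P ∣ Az m n z` (`α = d - deg P`; two different such `P` are coprime and their product of degree `≥ 2 (d - e) > d` divides `Az m n z ≠ 0` of degree `d`, `az_mon`; `mem_pf`); with `gz z = 0` there is none.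
  So `gz z * φ z = ∑ α, ∑ P ∈ Pr F (d - α), if P ∣ Az m n z then φ z else 0`; interchange (`Finset.sum_comm`, `Finset.sum_filter`).
* `gz_fou`: for `α ∈ Icc a e`, `P ∈ Pr F (d - α)`: `deg P = d - α ≤ n`, `rc`: the sum over `z` is `ψ r * ∑ b ∈ Lt F (α - deg m), ψ (P * b)` (`n - (d - α) = α - deg m`; bijection `b ↦ r + P b`), `‖ψ r‖ = 1` (`F[X]` has exponent `p`, so `ψ r ^ p = 1`; `norm_eq_one_of_pow_eq_one`);
  `H74.ST.sup_bound` with `m := d - α`, `α := α - deg m`, `(d - α) + (α - deg m) = n`, `α - deg m ≤ d - α` (`2 α ≤ 2 e < d`): the sum over `P` is at most `q ^ (d - α + 1)`; `∑_{α ∈ Icc a e} q ^ (d - α + 1) ≤ 2 q ^ (d + 1 - a)` (geometric series, `q ≥ 2`).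
* `gz_mean`: `gz_sum` with `φ = 1`, `rc_card`.
* `gz_range`: `gz` is `0` or `1`.
-/

namespace Pool.Agent.H3.SD

open Polynomial
open Pool.Agent.H94.PC
open Pool.Agent.H94.PS

variable {F : Type} [Field F] [Finite F] {m : F[X]} {n a e : ℕ}

theorem gz_range (z : F[X]) : 0 ≤ gz m n a e z ∧ gz m n a e z ≤ 1 := by
  classical
  unfold gz
  split_ifs
  · exact ⟨zero_le_one, le_rfl⟩
  · exact ⟨le_rfl, zero_le_one⟩

private theorem gf_uniq {A : F[X]} {d : ℕ} (he : 2 * e < d) (hA : A.Monic) (hd : A.natDegree = d)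
    {P P' : F[X]} (hP : P.Monic) (hP' : Irreducible P) (hPA : P ∣ A) (hQ : P'.Monic)
    (hQ' : Irreducible P') (hQA : P' ∣ A) (h : d ≤ P.natDegree + e)
    (h' : d ≤ P'.natDegree + e) : P = P' := by
  by_contra hne
  have h1 : P * P' ∣ A := (isCoprime_irr hP hP' hQ hQ' hne).mul_dvd hPA hQA
  have h2 := natDegree_le_of_dvd h1 hA.ne_zero
  rw [hP.natDegree_mul hQ, hd] at h2
  omega

open Classical in
private theorem gf_point (hm : m.Monic) (hn : 0 < n) (he : 2 * e < n + m.natDegree)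
    (φ : F[X] → ℂ) {z : F[X]} (hz : z ∈ Lt F n) :
    (gz m n a e z : ℂ) * φ z =
      ∑ α ∈ Finset.Icc a e, ∑ P ∈ Pr F (n + m.natDegree - α),
        if P ∣ Az m n z then φ z else 0 := by
  obtain ⟨hA, hd⟩ := az_mon hm hn hz
  have hA0 := hA.ne_zero
  by_cases hg : ∃ P ∈ pf (Az m n z), n + m.natDegree ≤ P.natDegree + e ∧
      P.natDegree + a ≤ n + m.natDegree
  · have h1 : gz m n a e z = 1 := by
      unfold gz
      rw [if_pos hg]
    rw [h1]
    obtain ⟨P0, hP0, h2, h3⟩ := hg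
    rw [mem_pf hA0] at hP0
    obtain ⟨hP1, hP2, hP3⟩ := hP0
    have hP4 := natDegree_le_of_dvd hP3 hA0
    rw [hd] at hP4
    rw [Finset.sum_eq_single (n + m.natDegree - P0.natDegree)]
    · rw [Finset.sum_eq_single P0]
      · rw [if_pos hP3]
        push_cast
        ring
      · intro P hP hne
        rw [mem_Pr] at hP
        refine if_neg fun hd' => hne ?_
        exact gf_uniq he hA hd hP.1 hP.2.2 hd' hP1 hP2 hP3 (by omega) h2
      · intro hP
        exact absurd (mem_Pr.2 ⟨hP1, by omega, hP2⟩) hP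
    · intro α hα hne
      rw [Finset.mem_Icc] at hα
      refine Finset.sum_eq_zero fun P hP => ?_
      rw [mem_Pr] at hP
      refine if_neg fun hd' => hne ?_
      have h4 := gf_uniq he hA hd hP.1 hP.2.2 hd' hP1 hP2 hP3 (by omega) h2
      rw [← h4, hP.2.1]
      omega
    · intro h4
      rw [Finset.mem_Icc] at h4
      omega
  · have h1 : gz m n a e z = 0 := by
      unfold gz
      rw [if_neg hg]
    rw [h1]
    symm
    push_cast
    rw [zero_mul]
    refine Finset.sum_eq_zero fun α hα => Finset.sum_eq_zero fun P hP => ?_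
    rw [Finset.mem_Icc] at hα
    rw [mem_Pr] at hP
    refine if_neg fun hd' => hg ?_
    exact ⟨P, (mem_pf hA0).2 ⟨hP.1, hP.2.2, hd'⟩, by omega, by omega⟩

open Classical in
theorem gz_sum (hm : m.Monic) (hn : 0 < n) (he : 2 * e < n + m.natDegree)
    (φ : F[X] → ℂ) :
    ∑ z ∈ Lt F n, (gz m n a e z : ℂ) * φ z =
      ∑ α ∈ Finset.Icc a e, ∑ P ∈ Pr F (n + m.natDegree - α),
        ∑ z ∈ (Lt F n).filter (fun z => P ∣ Az m n z), φ z := by
  rw [Finset.sum_congr rfl fun z hz => gf_point (a := a) hm hn he φ hz]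
  rw [Finset.sum_comm]
  refine Finset.sum_congr rfl fun α _ => ?_
  rw [Finset.sum_comm]
  refine Finset.sum_congr rfl fun P _ => ?_
  rw [Finset.sum_filter]

private theorem gf_norm (ψ : AddChar F[X] ℂ) (r : F[X]) : ‖ψ r‖ = 1 := by
  have h1 : ψ r ^ Nat.card F = 1 := by
    rw [← AddChar.map_nsmul_eq_pow]
    have h2 : Nat.card F • r = 0 := by
      have := Fintype.ofFinite F
      rw [nsmul_eq_mul, ← C_eq_natCast, Nat.card_eq_fintype_card, Nat.cast_card_eq_zero, C_0,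
        zero_mul]
    rw [h2, AddChar.map_zero_eq_one]
  exact Complex.norm_eq_one_of_pow_eq_one h1 Nat.card_pos.ne'

open Classical in
private theorem gf_inner (ψ : AddChar F[X] ℂ) {P : F[X]} (hP : P.Monic) (hc : IsCoprime m P)
    (hn : P.natDegree ≤ n) :
    ‖∑ z ∈ (Lt F n).filter (fun z => P ∣ Az m n z), ψ z‖ =
      ‖∑ b ∈ Lt F (n - P.natDegree), ψ (P * b)‖ := by
  obtain ⟨r, hr⟩ := rc hP hc hn
  have h1 : (Lt F n).filter (fun z => P ∣ Az m n z) =
      (Lt F (n - P.natDegree)).image fun b => r + P * b := by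
    ext z
    rw [Finset.mem_filter, hr z, Finset.mem_image]
    constructor
    · rintro ⟨b, hb, hz⟩
      exact ⟨b, hb, hz.symm⟩
    · rintro ⟨b, hb, hz⟩
      exact ⟨b, hb, hz.symm⟩
  rw [h1, Finset.sum_image]
  · have h2 : ∀ b ∈ Lt F (n - P.natDegree), ψ (r + P * b) = ψ r * ψ (P * b) := fun b _ =>
      AddChar.map_add_eq_mul ψ r (P * b)
    rw [Finset.sum_congr rfl h2, ← Finset.mul_sum, norm_mul, gf_norm, one_mul]
  · intro b _ b' _ h
    exact mul_left_cancel₀ hP.ne_zero (add_left_cancel h)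

private theorem gf_geom {q d : ℕ} (hq : 2 ≤ q) (hed : e ≤ d) :
    ∑ α ∈ Finset.Icc a e, q ^ (d - α + 1) ≤ 2 * q ^ (d + 1 - a) := by
  have h1 : ∑ α ∈ Finset.Icc a e, q ^ (d - α + 1) =
      ∑ k ∈ (Finset.Icc a e).image (fun α => d - α + 1), q ^ k := by
    rw [Finset.sum_image]
    intro α hα β hβ h
    rw [Finset.coe_Icc, Set.mem_Icc] at hα hβ
    have h2 : d - α + 1 = d - β + 1 := h
    omega
  rw [h1]
  refine le_trans ?_ (H74.ST.sum_pow_le hq (d + 1 - a))
  refine Finset.sum_le_sum_of_subset ?_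
  intro k hk
  rw [Finset.mem_image] at hk
  obtain ⟨α, hα, rfl⟩ := hk
  rw [Finset.mem_Icc] at hα
  rw [Finset.mem_range]
  omega

theorem gz_fou (hm : m.Monic) (hn : 0 < n) (ha : m.natDegree ≤ a)
    (he : 2 * e < n + m.natDegree)
    (hc : ∀ k, n + m.natDegree ≤ k + e → ∀ P ∈ Pr F k, IsCoprime m P)
    (ψ : AddChar F[X] ℂ) (hψ : ∃ g ∈ Lt F n, ψ g ≠ 1) :
    ‖∑ z ∈ Lt F n, (gz m n a e z : ℂ) * ψ z‖ ≤
      2 * (Nat.card F : ℝ) ^ (n + m.natDegree + 1 - a) := by
  classical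
  rw [gz_sum hm hn he]
  refine (norm_sum_le _ _).trans ?_
  have h1 : ∀ α ∈ Finset.Icc a e,
      ‖∑ P ∈ Pr F (n + m.natDegree - α),
        ∑ z ∈ (Lt F n).filter (fun z => P ∣ Az m n z), ψ z‖ ≤
        (Nat.card F : ℝ) ^ (n + m.natDegree - α + 1) := by
    intro α hα
    rw [Finset.mem_Icc] at hα
    refine (norm_sum_le _ _).trans ?_
    have h2 : ∀ P ∈ Pr F (n + m.natDegree - α),
        ‖∑ z ∈ (Lt F n).filter (fun z => P ∣ Az m n z), ψ z‖ =
          ‖∑ b ∈ Lt F (α - m.natDegree), ψ (P * b)‖ := by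
      intro P hP
      have hP' := mem_Pr.1 hP
      have h3 : n - P.natDegree = α - m.natDegree := by
        rw [hP'.2.1]
        omega
      rw [gf_inner ψ hP'.1 (hc _ (by omega) P hP) (by rw [hP'.2.1]; omega), h3]
    rw [Finset.sum_congr rfl h2]
    refine H74.ST.sup_bound ψ (by omega) ?_
    have h3 : n + m.natDegree - α + (α - m.natDegree) = n := by omega
    rw [h3]
    exact hψ
  refine (Finset.sum_le_sum h1).trans ?_
  have h4 := gf_geom (a := a) (e := e) (q := Nat.card F) (d := n + m.natDegree)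
    Finite.one_lt_card (by omega)
  exact_mod_cast h4

theorem gz_mean (hm : m.Monic) (hn : 0 < n) (ha : m.natDegree ≤ a)
    (he : 2 * e < n + m.natDegree)
    (hc : ∀ k, n + m.natDegree ≤ k + e → ∀ P ∈ Pr F k, IsCoprime m P) :
    ∑ z ∈ Lt F n, gz m n a e z =
      ∑ α ∈ Finset.Icc a e, ((Pr F (n + m.natDegree - α)).card : ℝ) *
        (Nat.card F : ℝ) ^ (α - m.natDegree) := by
  classical
  have h1 := gz_sum (a := a) hm hn he fun _ => (1 : ℂ)
  have h2 : ∑ α ∈ Finset.Icc a e, ∑ P ∈ Pr F (n + m.natDegree - α),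
      ∑ _z ∈ (Lt F n).filter (fun z => P ∣ Az m n z), (1 : ℂ) =
      ∑ α ∈ Finset.Icc a e, ((Pr F (n + m.natDegree - α)).card : ℂ) *
        (Nat.card F : ℂ) ^ (α - m.natDegree) := by
    refine Finset.sum_congr rfl fun α hα => ?_
    rw [Finset.mem_Icc] at hα
    rw [← nsmul_eq_mul, ← Finset.sum_const]
    refine Finset.sum_congr rfl fun P hP => ?_
    have hP' := mem_Pr.1 hP
    have h3 : n - P.natDegree = α - m.natDegree := by
      rw [hP'.2.1]
      omega
    rw [Finset.sum_const, nsmul_eq_mul, mul_one,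
      rc_card hP'.1 (hc _ (by omega) P hP) (by rw [hP'.2.1]; omega), h3]
    push_cast
    rfl
  rw [h2] at h1
  have h3 : ∀ z ∈ Lt F n, (gz m n a e z : ℂ) * 1 = (gz m n a e z : ℂ) := fun z _ => mul_one _
  rw [Finset.sum_congr rfl h3] at h1
  exact_mod_cast h1

end Pool.Agent.H3.SD
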