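import Pool.Agent.H3.SD.Defs

set_option autoImplicit false

/-!
# [H3 SD RC] The multiples of `Q` in the residue class

* `az_mon`: `X ^ n + z` is monic of degree `n` (`monic_X_pow_add` for `degree z < n`; `natDegree`), times the monic `m`, plus `1`: if `n + deg m ≥ 1` the degree of `1` is smaller; if `n = 0` and `deg m = 0` then `m = 1`, `z = 0` and `Az = 1 * (1 + 0) + 1 = 2` is not monic in general, so `0 < n` is assumed.
* `rc`: `m` is invertible modulo `Q`: `m s + Q t = 1`.  `Q ∣ m (X ^ n + z) + 1` iff `Q ∣ X ^ n + z + s` (multiply by `s`; resp. by `m`) iff `z = r` modulo `Q`, `r = (- X ^ n - s) %ₘ Q`, `degree r < degree Q`.  If `z = r + Q b` with `deg z < n`, `deg r < deg Q ≤ n`, then `Q b` has degree `< n`,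
  so `deg b < n - deg Q` (`degree_mul`, or `b = 0`), and conversely.
* `rc_card`: the map `b ↦ r + Q b` is injective; `card_Lt`.
* `rc_one`: two such `z, z'` are congruent modulo `Q` and `deg (z - z') < n ≤ deg Q`, so they are equal.
* `mo_monic`, `mo_dvd`, `mo_cop`: two different monic irreducible polynomials are coprime (`isCoprime_irr` in `H94.PC.Facs`), products and squares.
* `az_cop`: `Az m n z` is prime to `m` (`Az = m * .. + 1`).
* `az_add`: `Az m n x + Az m n y = C 2 * Az m n (C 2⁻¹ * (x + y))`.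
-/

namespace Pool.Agent.H3.SD

open Polynomial
open Pool.Agent.H94.PC
open Pool.Agent.H94.PS

variable {F : Type} [Field F] [Finite F] {m Q : F[X]} {n : ℕ}

theorem mem_Lt_iff {n : ℕ} {f : F[X]} : f ∈ Lt F n ↔ f = 0 ∨ f.natDegree < n := by
  rw [mem_Lt]
  by_cases hf : f = 0
  · subst hf
    simp
  · rw [degree_eq_natDegree hf, Nat.cast_lt]
    simp [hf]

theorem az_mon (hm : m.Monic) (hn : 0 < n) {z : F[X]} (hz : z ∈ Lt F n) :
    (Az m n z).Monic ∧ (Az m n z).natDegree = n + m.natDegree := by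
  rw [mem_Lt] at hz
  have h1 : (X ^ n + z).Monic := monic_X_pow_add hz
  have h2 : (X ^ n + z).natDegree = n := by
    rw [natDegree_add_eq_left_of_degree_lt]
    · exact natDegree_X_pow n
    · rwa [degree_X_pow]
  have h3 : (m * (X ^ n + z)).Monic := hm.mul h1
  have h4 : (m * (X ^ n + z)).natDegree = n + m.natDegree := by
    rw [hm.natDegree_mul h1, h2, add_comm]
  have h5 : (1 : F[X]).degree < (m * (X ^ n + z)).degree := by
    rw [degree_one, degree_eq_natDegree h3.ne_zero, h4]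
    exact_mod_cast (by omega : 0 < n + m.natDegree)
  refine ⟨h3.add_of_left h5, ?_⟩
  unfold Az
  rw [natDegree_add_eq_left_of_degree_lt h5, h4]

omit [Finite F] in
theorem dvd_az {s t : F[X]} (hst : s * m + t * Q = 1) (z : F[X]) :
    Q ∣ Az m n z ↔ Q ∣ X ^ n + z + s := by
  unfold Az
  constructor
  · rintro ⟨c, hc⟩
    refine ⟨s * c + t * (X ^ n + z), ?_⟩
    linear_combination s * hc - (X ^ n + z) * hst
  · rintro ⟨c, hc⟩
    refine ⟨m * c + t, ?_⟩
    linear_combination m * hc - hst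

theorem rc (hQ : Q.Monic) (hc : IsCoprime m Q) (hn : Q.natDegree ≤ n) :
    ∃ r : F[X], ∀ z : F[X], (z ∈ Lt F n ∧ Q ∣ Az m n z) ↔
      ∃ b ∈ Lt F (n - Q.natDegree), z = r + Q * b := by
  obtain ⟨s, t, hst⟩ := hc
  obtain ⟨r, hr⟩ : ∃ r, r = (-X ^ n - s) %ₘ Q := ⟨_, rfl⟩
  have h1 : r + Q * ((-X ^ n - s) /ₘ Q) = -X ^ n - s := by
    rw [hr]
    exact modByMonic_add_div _ Q
  have h2 : r ∈ Lt F n := by
    rw [mem_Lt, hr]
    refine (degree_modByMonic_lt _ hQ).trans_le ?_
    rw [degree_eq_natDegree hQ.ne_zero]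
    exact_mod_cast hn
  refine ⟨r, fun z => ?_⟩
  rw [dvd_az hst]
  constructor
  · rintro ⟨hz, c, hc⟩
    refine ⟨c + ((-X ^ n - s) /ₘ Q), ?_, ?_⟩
    swap
    · linear_combination hc - h1
    · have h3 : Q * (c + ((-X ^ n - s) /ₘ Q)) = z - r := by
        linear_combination h1 - hc
      have h4 : Q * (c + ((-X ^ n - s) /ₘ Q)) ∈ Lt F n := by
        rw [h3]
        exact H74.ST.Lt_sub hz h2
      rw [mem_Lt_iff] at h4 ⊢
      by_cases h5 : c + ((-X ^ n - s) /ₘ Q) = 0
      · exact Or.inl h5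
      · right
        rcases h4 with h4 | h4
        · exact absurd h4 (mul_ne_zero hQ.ne_zero h5)
        · rw [natDegree_mul hQ.ne_zero h5] at h4
          omega
  · rintro ⟨b, hb, rfl⟩
    refine ⟨?_, ?_⟩
    · apply H74.ST.Lt_add h2
      rw [mem_Lt_iff] at hb ⊢
      by_cases h5 : b = 0
      · left
        rw [h5, mul_zero]
      · right
        rcases hb with hb | hb
        · exact absurd hb h5
        · rw [natDegree_mul hQ.ne_zero h5]
          omega
    · refine ⟨b - ((-X ^ n - s) /ₘ Q), ?_⟩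
      linear_combination h1

open Classical in
theorem rc_card (hQ : Q.Monic) (hc : IsCoprime m Q) (hn : Q.natDegree ≤ n) :
    ((Lt F n).filter fun z => Q ∣ Az m n z).card = Nat.card F ^ (n - Q.natDegree) := by
  obtain ⟨r, hr⟩ := rc hQ hc hn
  have h1 : (Lt F n).filter (fun z => Q ∣ Az m n z) =
      (Lt F (n - Q.natDegree)).image fun b => r + Q * b := by
    ext z
    rw [Finset.mem_filter, hr z, Finset.mem_image]
    constructor
    · rintro ⟨b, hb, rfl⟩
      exact ⟨b, hb, rfl⟩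
    · rintro ⟨b, hb, rfl⟩
      exact ⟨b, hb, rfl⟩
  rw [h1, Finset.card_image_of_injective, card_Lt]
  intro b b' h
  exact mul_left_cancel₀ hQ.ne_zero (add_left_cancel h)

open Classical in
theorem rc_one (hQ : Q.Monic) (hc : IsCoprime m Q) (hn : n ≤ Q.natDegree) :
    ((Lt F n).filter fun z => Q ∣ Az m n z).card ≤ 1 := by
  rw [Finset.card_le_one]
  intro z hz z' hz'
  rw [Finset.mem_filter] at hz hz'
  have h1 : Q ∣ m * (z - z') := by
    have h2 : Az m n z - Az m n z' = m * (z - z') := by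
      unfold Az
      ring
    rw [← h2]
    exact dvd_sub hz.2 hz'.2
  have h3 : Q ∣ z - z' := hc.symm.dvd_of_dvd_mul_left h1
  have h4 := H74.ST.Lt_sub hz.1 hz'.1
  by_contra hne
  have h5 : z - z' ≠ 0 := sub_ne_zero.2 hne
  have h6 := natDegree_le_of_dvd h3 h5
  rw [mem_Lt_iff] at h4
  rcases h4 with h4 | h4
  · exact h5 h4
  · omega

theorem mo_monic (D : ℕ) : (mo F D).Monic := by
  unfold mo
  apply monic_prod_of_monic
  intro k _
  apply monic_prod_of_monic
  intro P hP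
  exact (mem_Pr.1 hP).1.pow 2

theorem mo_dvd {D k : ℕ} (hk : k ≤ D) {P : F[X]} (hP : P ∈ Pr F k) : P ∣ mo F D := by
  unfold mo
  have h1 : P ∣ P ^ 2 := dvd_pow_self P (by norm_num)
  have h2 : P ^ 2 ∣ ∏ P ∈ Pr F k, P ^ 2 := Finset.dvd_prod_of_mem (fun P : F[X] => P ^ 2) hP
  have h3 : (∏ P ∈ Pr F k, P ^ 2) ∣ ∏ k ∈ Finset.range (D + 1), ∏ P ∈ Pr F k, P ^ 2 :=
    Finset.dvd_prod_of_mem (fun k => ∏ P ∈ Pr F k, P ^ 2) (Finset.mem_range.2 (by omega))
  exact h1.trans (h2.trans h3)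

theorem mo_cop {D k : ℕ} (hk : D < k) {P : F[X]} (hP : P ∈ Pr F k) : IsCoprime (mo F D) P := by
  unfold mo
  apply IsCoprime.prod_left
  intro j hj
  apply IsCoprime.prod_left
  intro R hR
  apply IsCoprime.pow_left
  rw [Finset.mem_range] at hj
  have h1 := mem_Pr.1 hP
  have h2 := mem_Pr.1 hR
  refine isCoprime_irr h2.1 h2.2.2 h1.1 h1.2.2 ?_
  rintro rfl
  omega

omit [Finite F] in
theorem az_cop (m : F[X]) (n : ℕ) (z : F[X]) : IsCoprime m (Az m n z) := by
  refine ⟨-(X ^ n + z), 1, ?_⟩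
  unfold Az
  ring

omit [Finite F] in
theorem az_add (h2 : (2 : F) ≠ 0) (m : F[X]) (n : ℕ) (x y : F[X]) :
    Az m n x + Az m n y = C 2 * Az m n (C 2⁻¹ * (x + y)) := by
  have h3 : (C (2 : F) : F[X]) * C 2⁻¹ = 1 := by
    rw [← C_mul, mul_inv_cancel₀ h2, C_1]
  have h4 : (C (2 : F) : F[X]) = 2 := map_ofNat C 2
  unfold Az
  linear_combination (-(m * X ^ n) - 1) * 2 * h4 + (-(m * (x + y))) * h3 + (m * X ^ n + 1) * h4

end Pool.Agent.H3.SD
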